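import Mathlib
import Pool.Agent.H52.EH10
import Pool.Agent.H52.LB11

/-!
Primes in short intervals: the test function and its energy.
-/

set_option autoImplicit false

open Finset

namespace Pool.Agent.H52.SI

/-- the number of primes in `(n, n + h]` -/
noncomputable def fp (h n : ℕ) : ℝ := ∑ i ∈ Icc 1 h, (if (n + i).Prime then (1 : ℝ) else 0)

/-- the test function -/
noncomputable def tt (R1 R h n : ℕ) : ℝ := ∑ j ∈ Icc 1 h, wt R1 R (n + j)

/-- the kernel -/
noncomputable def KK (h r b : ℕ) : ℂ := ∑ j ∈ Icc 1 h, ee (j * b / r)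

lemma KK_mean (h r : ℕ) (hr : 0 < r) (hhr : h < r) :
    ∑ b ∈ red r, ‖KK h r b‖ ^ 2 ≤ r * h := by
  have h1 : ∑ b ∈ red r, ‖KK h r b‖ ^ 2 ≤ ∑ b ∈ range r, ‖KK h r b‖ ^ 2 := by
    apply sum_le_sum_of_subset_of_nonneg
    · unfold red
      exact filter_subset _ _
    · intro b _ _
      positivity
  refine h1.trans ?_
  have h2 := pars r hr (Icc 1 h) (fun _ => 1)
  simp only [one_mul, sum_const, nsmul_eq_mul, mul_one] at h2
  have h3 : ∑ b ∈ range r, ‖KK h r b‖ ^ 2 = ∑ ν ∈ range r, ‖∑ m ∈ Icc 1 h, ee (m * ν / r)‖ ^ 2 := rfl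
  rw [h3, h2]
  apply mul_le_mul_of_nonneg_left _ (by positivity)
  have h4 : ∀ a ∈ range r, ‖(((Icc 1 h).filter (fun m => m % r = a)).card : ℂ)‖ ^ 2 ≤
      (((Icc 1 h).filter (fun m => m % r = a)).card : ℝ) := by
    intro a _
    have h5 := card_le_of_congr ((Icc 1 h).filter (fun m => m % r = a)) h r (filter_subset _ _) a
      (fun i hi => (mem_filter.1 hi).2)
    rw [Nat.div_eq_of_lt hhr] at h5
    rw [Complex.norm_natCast]
    have h6 : (((Icc 1 h).filter (fun m => m % r = a)).card : ℝ) ≤ 1 := by exact_mod_cast h5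
    have h7 : (0 : ℝ) ≤ (((Icc 1 h).filter (fun m => m % r = a)).card : ℝ) := by positivity
    nlinarith
  refine (sum_le_sum h4).trans (le_of_eq ?_)
  have h5 : (Icc 1 h).card = ∑ a ∈ range r, ((Icc 1 h).filter (fun m => m % r = a)).card := by
    apply card_eq_sum_card_fiberwise
    intro m _
    rw [coe_range, Set.mem_Iio]
    exact Nat.mod_lt _ hr
  have h6 : (((Icc 1 h).card : ℕ) : ℝ) = h := by
    rw [Nat.card_Icc, Nat.add_sub_cancel]
  rw [← h6, h5]
  push_cast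
  rfl

lemma tt_complex (R1 R h n : ℕ) : ((tt R1 R h n : ℝ) : ℂ) =
    ∑ r ∈ Ioc R1 R, ∑ b ∈ red r, ((mu r / r : ℝ) : ℂ) * KK h r b * ee (n * b / r) := by
  unfold tt
  rw [Complex.ofReal_sum]
  have h1 : ∀ j ∈ Icc 1 h, ((wt R1 R (n + j) : ℝ) : ℂ) =
      ∑ r ∈ Ioc R1 R, ∑ b ∈ red r, ((mu r / r : ℝ) : ℂ) * (ee (j * b / r) * ee (n * b / r)) := by
    intro j _
    rw [wt_complex]
    apply sum_congr rfl
    intro r _
    rw [mul_sum]
    apply sum_congr rfl
    intro b _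
    congr 1
    rw [← ls_ee_add]
    congr 1
    push_cast
    ring
  rw [sum_congr rfl h1, sum_comm]
  apply sum_congr rfl
  intro r _
  rw [sum_comm]
  apply sum_congr rfl
  intro b _
  unfold KK
  rw [mul_sum, sum_mul]
  apply sum_congr rfl
  intro j _
  ring

/-- the energy of the test function -/
theorem energy (R1 R h A B : ℕ) (hh : h ≤ R1) :
    ∑ n ∈ Ioc A B, tt R1 R h n ^ 2 ≤ 6 * (B + (R : ℝ) ^ 2) * (h * LL R1 R) := by
  set a : ℕ → ℝ := fun n => if A < n then tt R1 R h n else 0 with ha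
  set S : ℝ := ∑ n ∈ Ioc A B, tt R1 R h n ^ 2 with hS
  have hS0 : 0 ≤ S := sum_nonneg fun n _ => by positivity
  have hsub : ∀ F : ℕ → ℝ, ∑ n ∈ Ioc A B, F n = ∑ n ∈ Icc 1 B, if A < n then F n else 0 := by
    intro F
    rw [← sum_filter]
    apply sum_congr _ (fun _ _ => rfl)
    ext n
    rw [mem_Ioc, mem_filter, mem_Icc]
    constructor
    · intro h1
      omega
    · intro h1
      omega
  have hS1 : S = ∑ n ∈ Icc 1 B, a n * tt R1 R h n := by
    rw [hS, hsub]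
    apply sum_congr rfl
    intro n _
    simp only [ha]
    split_ifs
    · ring
    · ring
  have hS2 : S = ∑ n ∈ Icc 1 B, ‖((a n : ℝ) : ℂ)‖ ^ 2 := by
    rw [hS, hsub]
    apply sum_congr rfl
    intro n _
    rw [Complex.norm_real, Real.norm_eq_abs, sq_abs]
    simp only [ha]
    split_ifs
    · ring
    · ring
  have hls := additive_large_sieve B R (fun n => ((a n : ℝ) : ℂ))
  rw [← hS2] at hls
  have hexp : ((S : ℝ) : ℂ) = ∑ r ∈ Ioc R1 R, ∑ b ∈ red r, ((mu r / r : ℝ) : ℂ) * KK h r b *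
      ∑ n ∈ Icc 1 B, ((a n : ℝ) : ℂ) * ee (n * b / r) := by
    rw [hS1, Complex.ofReal_sum]
    have h1 : ∀ n ∈ Icc 1 B, ((a n * tt R1 R h n : ℝ) : ℂ) = ∑ r ∈ Ioc R1 R, ∑ b ∈ red r,
        ((mu r / r : ℝ) : ℂ) * KK h r b * (((a n : ℝ) : ℂ) * ee (n * b / r)) := by
      intro n _
      rw [Complex.ofReal_mul, tt_complex, mul_sum]
      apply sum_congr rfl
      intro r _
      rw [mul_sum]
      apply sum_congr rfl
      intro b _
      ring
    rw [sum_congr rfl h1, sum_comm]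
    apply sum_congr rfl
    intro r _
    rw [sum_comm]
    apply sum_congr rfl
    intro b _
    rw [mul_sum]
  have hnorm : S ≤ ∑ r ∈ Ioc R1 R, ∑ b ∈ red r, (|mu r| / r * ‖KK h r b‖) *
      ‖∑ n ∈ Icc 1 B, ((a n : ℝ) : ℂ) * ee (n * b / r)‖ := by
    have h1 : S = ‖((S : ℝ) : ℂ)‖ := by
      rw [Complex.norm_real, Real.norm_eq_abs, abs_of_nonneg hS0]
    rw [h1, hexp]
    refine (norm_sum_le _ _).trans (sum_le_sum fun r _ => ?_)
    refine (norm_sum_le _ _).trans (sum_le_sum fun b _ => ?_)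
    rw [norm_mul, norm_mul, Complex.norm_real, Real.norm_eq_abs, abs_div, Nat.abs_cast]
  have hcs := cs_double (Ioc R1 R) red (fun r b => |mu r| / r * ‖KK h r b‖)
    (fun r b => ‖∑ n ∈ Icc 1 B, ((a n : ℝ) : ℂ) * ee (n * b / r)‖)
  have hA : ∑ r ∈ Ioc R1 R, ∑ b ∈ red r, (|mu r| / r * ‖KK h r b‖) ^ 2 ≤ h * LL R1 R := by
    unfold LL
    rw [mul_sum]
    apply sum_le_sum
    intro r hr
    rw [mem_Ioc] at hr
    have hr0 : (0 : ℝ) < r := by exact_mod_cast (by omega : 0 < r)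
    have h1 : ∑ b ∈ red r, (|mu r| / r * ‖KK h r b‖) ^ 2 =
        ((mu r) ^ 2 / (r : ℝ) ^ 2) * ∑ b ∈ red r, ‖KK h r b‖ ^ 2 := by
      rw [mul_sum]
      apply sum_congr rfl
      intro b _
      rw [mul_pow, div_pow, sq_abs]
    rw [h1]
    calc ((mu r) ^ 2 / (r : ℝ) ^ 2) * ∑ b ∈ red r, ‖KK h r b‖ ^ 2 ≤
          ((mu r) ^ 2 / (r : ℝ) ^ 2) * (r * h) := by
          apply mul_le_mul_of_nonneg_left (KK_mean h r (by omega) (by omega)) (by positivity)
      _ = h * ((mu r) ^ 2 / r) := by field_simp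
  have hB : ∑ r ∈ Ioc R1 R, ∑ b ∈ red r, ‖∑ n ∈ Icc 1 B, ((a n : ℝ) : ℂ) * ee (n * b / r)‖ ^ 2 ≤
      6 * (B + (R : ℝ) ^ 2) * S := by
    refine le_trans ?_ hls
    apply sum_le_sum_of_subset_of_nonneg
    · intro r hr
      rw [mem_Ioc] at hr
      rw [mem_Icc]
      omega
    · intro r _ _
      positivity
  have h5 : S ^ 2 ≤ (h * LL R1 R) * (6 * (B + (R : ℝ) ^ 2) * S) := by
    calc S ^ 2 ≤ (∑ r ∈ Ioc R1 R, ∑ b ∈ red r, (|mu r| / r * ‖KK h r b‖) *
          ‖∑ n ∈ Icc 1 B, ((a n : ℝ) : ℂ) * ee (n * b / r)‖) ^ 2 := pow_le_pow_left₀ hS0 hnorm 2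
      _ ≤ _ := hcs
      _ ≤ _ := mul_le_mul hA hB (by positivity) (by
          unfold LL
          positivity)
  rcases hS0.lt_or_eq with h6 | h6
  · have h7 : S * S ≤ (6 * (B + (R : ℝ) ^ 2) * (h * LL R1 R)) * S := by
      calc S * S = S ^ 2 := by ring
        _ ≤ _ := h5
        _ = _ := by ring
    exact le_of_mul_le_mul_right h7 h6
  · rw [← h6]
    unfold LL
    positivity

/-- sums of the weight over intervals -/
lemma wt_interval (R1 R a Y : ℕ) (hR1 : 1 ≤ R1) :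
    |∑ m ∈ Ioc a (a + Y), wt R1 R m| ≤ R * (1 + Real.log R) := by
  have hL := logR_nonneg R
  unfold wt
  rw [sum_comm]
  refine (abs_sum_le_sum_abs _ _).trans ?_
  have h1 : ∀ r ∈ Ioc R1 R, |∑ m ∈ Ioc a (a + Y), mu r / r * cr r m| ≤ 1 + Real.log R := by
    intro r hr
    rw [mem_Ioc] at hr
    have hr0 : (0 : ℝ) < r := by exact_mod_cast (by omega : 0 < r)
    rw [← mul_sum]
    have h2 : ∑ m ∈ Ioc a (a + Y), cr r m = ∑ d ∈ r.divisors, ((d : ℝ) * mu (r / d)) *
        (((Ioc a (a + Y)).filter (fun m => d ∣ m)).card : ℝ) := by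
      unfold cr
      have h3 : ∀ m ∈ Ioc a (a + Y), ∑ d ∈ r.divisors.filter (fun d => d ∣ m), (d : ℝ) * mu (r / d) =
          ∑ d ∈ r.divisors, if d ∣ m then (d : ℝ) * mu (r / d) else 0 := by
        intro m _
        rw [sum_filter]
      rw [sum_congr rfl h3, sum_comm]
      apply sum_congr rfl
      intro d _
      rw [← sum_filter, sum_const, nsmul_eq_mul, mul_comm]
    have h4 : ∑ d ∈ r.divisors, mu (r / d) = 0 := by
      rw [Nat.sum_div_divisors r mu, sum_mu r (by omega), if_neg (by omega)]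
    have h5 : ∑ m ∈ Ioc a (a + Y), cr r m = ∑ d ∈ r.divisors, ((d : ℝ) * mu (r / d)) *
        ((((Ioc a (a + Y)).filter (fun m => d ∣ m)).card : ℝ) - Y / d) := by
      rw [h2]
      have h6 : ∑ d ∈ r.divisors, ((d : ℝ) * mu (r / d)) *
          ((((Ioc a (a + Y)).filter (fun m => d ∣ m)).card : ℝ) - Y / d) =
          ∑ d ∈ r.divisors, ((d : ℝ) * mu (r / d)) *
          (((Ioc a (a + Y)).filter (fun m => d ∣ m)).card : ℝ) - Y * ∑ d ∈ r.divisors, mu (r / d) := by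
        rw [mul_sum, ← sum_sub_distrib]
        apply sum_congr rfl
        intro d hd
        have hd0 : (d : ℝ) ≠ 0 := by exact_mod_cast (Nat.pos_of_mem_divisors hd).ne'
        field_simp
      rw [h6, h4]
      ring
    rw [h5, abs_mul, abs_div, Nat.abs_cast]
    have h6 : |∑ d ∈ r.divisors, ((d : ℝ) * mu (r / d)) *
        ((((Ioc a (a + Y)).filter (fun m => d ∣ m)).card : ℝ) - Y / d)| ≤ ∑ d ∈ r.divisors, (d : ℝ) := by
      refine (abs_sum_le_sum_abs _ _).trans (sum_le_sum fun d hd => ?_)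
      rw [abs_mul, abs_mul, Nat.abs_cast]
      have e1 := count_mult a Y d (Nat.pos_of_mem_divisors hd)
      have e2 := abs_mu_le (r / d)
      calc (d : ℝ) * |mu (r / d)| * |(((Ioc a (a + Y)).filter (fun m => d ∣ m)).card : ℝ) - Y / d| ≤
            d * 1 * 1 := by gcongr
        _ = d := by ring
    have h7 := sigma_le r R (by omega) (by omega)
    calc |mu r| / r * |∑ d ∈ r.divisors, ((d : ℝ) * mu (r / d)) *
        ((((Ioc a (a + Y)).filter (fun m => d ∣ m)).card : ℝ) - Y / d)| ≤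
          1 / r * ∑ d ∈ r.divisors, (d : ℝ) := by
          apply mul_le_mul _ h6 (abs_nonneg _) (by positivity)
          exact div_le_div_of_nonneg_right (abs_mu_le r) hr0.le
      _ ≤ _ := h7
  refine (sum_le_sum h1).trans ?_
  rw [sum_const, nsmul_eq_mul, Nat.card_Ioc]
  apply mul_le_mul_of_nonneg_right _ hL
  exact_mod_cast Nat.sub_le R R1

/-- partial sums of the test function -/
lemma tt_interval (R1 R h a Y : ℕ) (hR1 : 1 ≤ R1) :
    |∑ n ∈ Ioc a (a + Y), tt R1 R h n| ≤ h * (R * (1 + Real.log R)) := by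
  unfold tt
  rw [sum_comm]
  refine (abs_sum_le_sum_abs _ _).trans ?_
  have h1 : ∀ j ∈ Icc 1 h, |∑ n ∈ Ioc a (a + Y), wt R1 R (n + j)| ≤ R * (1 + Real.log R) := by
    intro j _
    have h2 : ∑ n ∈ Ioc a (a + Y), wt R1 R (n + j) = ∑ m ∈ Ioc (a + j) (a + j + Y), wt R1 R m := by
      apply sum_bij (fun n _ => n + j)
      · intro n hn
        rw [mem_Ioc] at hn ⊢
        omega
      · intro n _ m _ hnm
        simpa using hnm
      · intro m hm
        rw [mem_Ioc] at hm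
        refine ⟨m - j, ?_, ?_⟩
        · rw [mem_Ioc]
          omega
        · omega
      · intro n _
        rfl
    rw [h2]
    exact wt_interval R1 R (a + j) Y hR1
  refine (sum_le_sum h1).trans ?_
  rw [sum_const, nsmul_eq_mul, Nat.card_Icc, Nat.add_sub_cancel]

/-- partial summation -/
lemma parts (c t : ℕ → ℝ) (A k : ℕ) (Bd C V : ℝ) (hBd : 0 ≤ Bd)
    (ht : ∀ Y ≤ k, |∑ n ∈ Ioc A (A + Y), t n| ≤ Bd)
    (hc : |c (A + k)| ≤ C) (hV : ∑ n ∈ Ioo A (A + k), |c (n + 1) - c n| ≤ V) :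
    |∑ n ∈ Ioc A (A + k), c n * t n| ≤ (C + V) * Bd := by
  have hI : ∀ (F : ℕ → ℝ) (Y : ℕ), ∑ n ∈ Ioc A (A + Y), F n = ∑ i ∈ range Y, F (A + 1 + i) := by
    intro F Y
    have h0 := Finset.sum_Ico_eq_sum_range F (A + 1) (A + 1 + Y)
    rw [Nat.add_sub_cancel_left] at h0
    rw [← h0]
    apply sum_congr _ (fun _ _ => rfl)
    ext n
    rw [mem_Ioc, mem_Ico]
    omega
  have hC0 : 0 ≤ C := (abs_nonneg _).trans hc
  have hV0 : 0 ≤ V := (sum_nonneg fun n _ => abs_nonneg _).trans hV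
  rcases Nat.eq_zero_or_pos k with hk | hk
  · subst hk
    simp only [add_zero, Ioc_self, sum_empty, abs_zero]
    positivity
  rw [hI]
  have h1 := Finset.sum_range_by_parts (fun i => c (A + 1 + i)) (fun i => t (A + 1 + i)) k
  simp only [smul_eq_mul] at h1
  rw [h1]
  have hG : ∀ Y ≤ k, |∑ i ∈ range Y, t (A + 1 + i)| ≤ Bd := by
    intro Y hY
    rw [← hI]
    exact ht Y hY
  have h2 : |c (A + 1 + (k - 1)) * ∑ i ∈ range k, t (A + 1 + i)| ≤ C * Bd := by
    rw [abs_mul]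
    have h3 : A + 1 + (k - 1) = A + k := by omega
    rw [h3]
    exact mul_le_mul hc (hG k le_rfl) (abs_nonneg _) hC0
  have h4 : |∑ i ∈ range (k - 1), (c (A + 1 + (i + 1)) - c (A + 1 + i)) * ∑ i ∈ range (i + 1), t (A + 1 + i)| ≤
      V * Bd := by
    refine (abs_sum_le_sum_abs _ _).trans ?_
    have h5 : ∀ i ∈ range (k - 1), |(c (A + 1 + (i + 1)) - c (A + 1 + i)) * ∑ i ∈ range (i + 1), t (A + 1 + i)| ≤
        |c (A + 1 + i + 1) - c (A + 1 + i)| * Bd := by
      intro i hi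
      rw [mem_range] at hi
      rw [abs_mul]
      have h6 : A + 1 + (i + 1) = A + 1 + i + 1 := by ring
      rw [h6]
      exact mul_le_mul_of_nonneg_left (hG (i + 1) (by omega)) (abs_nonneg _)
    refine (sum_le_sum h5).trans ?_
    rw [← sum_mul]
    apply mul_le_mul_of_nonneg_right _ hBd
    refine le_trans (le_of_eq ?_) hV
    have h7 : Ioo A (A + k) = Ioc A (A + (k - 1)) := by
      ext n
      rw [mem_Ioo, mem_Ioc]
      omega
    rw [h7, hI (fun n => |c (n + 1) - c n|)]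
  calc |c (A + 1 + (k - 1)) * ∑ i ∈ range k, t (A + 1 + i) -
        ∑ i ∈ range (k - 1), (c (A + 1 + (i + 1)) - c (A + 1 + i)) * ∑ i ∈ range (i + 1), t (A + 1 + i)| ≤
        |c (A + 1 + (k - 1)) * ∑ i ∈ range k, t (A + 1 + i)| +
        |∑ i ∈ range (k - 1), (c (A + 1 + (i + 1)) - c (A + 1 + i)) * ∑ i ∈ range (i + 1), t (A + 1 + i)| :=
        abs_sub _ _
    _ ≤ C * Bd + V * Bd := add_le_add h2 h4
    _ = _ := by ring

end Pool.Agent.H52.SI
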