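import Mathlib
import Pool.Agent.H52.SI.S1

/-!
Primes in short intervals: the correlation with the test function.
-/

set_option autoImplicit false

open Finset

namespace Pool.Agent.H52.SI

lemma shift_primes (A B i : ℕ) (G : ℕ → ℝ) :
    ∑ n ∈ Ioc A B, (if (n + i).Prime then G (n + i) else 0) =
      ∑ p ∈ (Pr (B + i)).filter (fun p => A + i < p), G p := by
  rw [← sum_filter]
  apply sum_bij (fun n _ => n + i)
  · intro n hn
    rw [mem_filter, mem_Ioc] at hn
    unfold Pr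
    rw [mem_filter, mem_filter, mem_Icc]
    refine ⟨⟨⟨hn.2.pos, by omega⟩, hn.2⟩, by omega⟩
  · intro n _ m _ hnm
    simpa using hnm
  · intro p hp
    unfold Pr at hp
    rw [mem_filter, mem_filter, mem_Icc] at hp
    refine ⟨p - i, ?_, ?_⟩
    · rw [mem_filter, mem_Ioc]
      have h1 : p - i + i = p := by omega
      rw [h1]
      exact ⟨by omega, hp.1.2⟩
    · omega
  · intro n _
    rfl

lemma window (h i p : ℕ) (hi : i ∈ Icc 1 h) (hp : i ≤ p) (F : ℕ → ℝ) :
    ∑ j ∈ Icc 1 h, F (p - i + j) =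
      F p + ∑ k ∈ Icc 1 (h - i), F (p + k) + ∑ k ∈ Icc 1 (i - 1), F (p - k) := by
  rw [mem_Icc] at hi
  have h1 : Icc 1 h = (Icc 1 (i - 1) ∪ Icc (i + 1) h) ∪ {i} := by
    ext j
    simp only [mem_union, mem_Icc, mem_singleton]
    omega
  have h2 : Disjoint (Icc 1 (i - 1) ∪ Icc (i + 1) h) {i} := by
    rw [disjoint_right]
    intro j hj
    simp only [mem_union, mem_Icc, mem_singleton] at *
    omega
  have h3 : Disjoint (Icc 1 (i - 1)) (Icc (i + 1) h) := by
    rw [disjoint_left]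
    intro j hj hj2
    rw [mem_Icc] at hj hj2
    omega
  rw [h1, sum_union h2, sum_union h3, sum_singleton]
  have h4 : ∑ j ∈ Icc 1 (i - 1), F (p - i + j) = ∑ k ∈ Icc 1 (i - 1), F (p - k) := by
    apply sum_bij (fun j _ => i - j)
    · intro j hj
      rw [mem_Icc] at hj ⊢
      omega
    · intro a ha b hb hab
      rw [mem_Icc] at ha hb
      have hab' : i - a = i - b := hab
      omega
    · intro k hk
      rw [mem_Icc] at hk
      refine ⟨i - k, ?_, ?_⟩
      · rw [mem_Icc]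
        omega
      · omega
    · intro j hj
      rw [mem_Icc] at hj
      congr 1
      omega
  have h5 : ∑ j ∈ Icc (i + 1) h, F (p - i + j) = ∑ k ∈ Icc 1 (h - i), F (p + k) := by
    apply sum_bij (fun j _ => j - i)
    · intro j hj
      rw [mem_Icc] at hj ⊢
      omega
    · intro a ha b hb hab
      rw [mem_Icc] at ha hb
      have hab' : a - i = b - i := hab
      omega
    · intro k hk
      rw [mem_Icc] at hk
      refine ⟨i + k, ?_, ?_⟩
      · rw [mem_Icc]
        omega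
      · omega
    · intro j hj
      rw [mem_Icc] at hj
      congr 1
      omega
  rw [h4, h5]
  have h6 : p - i + i = p := by omega
  rw [h6]
  ring

theorem cross (N R1 R h F0 A B : ℕ) (T M2 : ℝ) (H : Hyp N R1 R 1 F0 T M2) (hRA : R ≤ A)
    (hBN : B + h ≤ N) :
    |∑ n ∈ Ioc A B, fp h n * tt R1 R h n - LL R1 R * ∑ n ∈ Ioc A B, fp h n| ≤
      2 * h * Om N R1 R h F0 T M2 := by
  have hT0 : 0 ≤ T := by linarith [H.hT1]
  have h1 : ∑ n ∈ Ioc A B, fp h n * tt R1 R h n = ∑ i ∈ Icc 1 h,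
      ∑ p ∈ (Pr (B + i)).filter (fun p => A + i < p), ∑ j ∈ Icc 1 h, wt R1 R (p - i + j) := by
    have h2 : ∀ i ∈ Icc 1 h, ∑ p ∈ (Pr (B + i)).filter (fun p => A + i < p),
        ∑ j ∈ Icc 1 h, wt R1 R (p - i + j) =
        ∑ n ∈ Ioc A B, (if (n + i).Prime then (1 : ℝ) else 0) * tt R1 R h n := by
      intro i _
      rw [← shift_primes A B i (fun p => ∑ j ∈ Icc 1 h, wt R1 R (p - i + j))]
      apply sum_congr rfl
      intro n _
      unfold tt
      split_ifs
      · rw [one_mul]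
        apply sum_congr rfl
        intro j _
        congr 1
        omega
      · rw [zero_mul]
    rw [sum_congr rfl h2, sum_comm]
    apply sum_congr rfl
    intro n _
    unfold fp
    rw [sum_mul]
  have h3 : LL R1 R * ∑ n ∈ Ioc A B, fp h n = ∑ i ∈ Icc 1 h,
      ∑ p ∈ (Pr (B + i)).filter (fun p => A + i < p), wt R1 R p := by
    have h4 : ∀ i ∈ Icc 1 h, ∑ p ∈ (Pr (B + i)).filter (fun p => A + i < p), wt R1 R p =
        ∑ n ∈ Ioc A B, LL R1 R * (if (n + i).Prime then (1 : ℝ) else 0) := by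
      intro i _
      rw [← shift_primes A B i (fun p => wt R1 R p)]
      apply sum_congr rfl
      intro n hn
      rw [mem_Ioc] at hn
      split_ifs with hp
      · rw [mul_one]
        exact wt_prime R1 R (n + i) hp (by omega)
      · rw [mul_zero]
    rw [sum_congr rfl h4, sum_comm, mul_sum]
    apply sum_congr rfl
    intro n _
    unfold fp
    rw [mul_sum]
  rw [h1, h3, ← sum_sub_distrib]
  refine (abs_sum_le_sum_abs _ _).trans ?_
  have h5 : ∀ i ∈ Icc 1 h, |∑ p ∈ (Pr (B + i)).filter (fun p => A + i < p),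
      ∑ j ∈ Icc 1 h, wt R1 R (p - i + j) -
      ∑ p ∈ (Pr (B + i)).filter (fun p => A + i < p), wt R1 R p| ≤ 2 * Om N R1 R h F0 T M2 := by
    intro i hi
    have hi' := mem_Icc.1 hi
    have h6 : ∑ p ∈ (Pr (B + i)).filter (fun p => A + i < p), ∑ j ∈ Icc 1 h, wt R1 R (p - i + j) -
        ∑ p ∈ (Pr (B + i)).filter (fun p => A + i < p), wt R1 R p =
        ∑ p ∈ (Pr (B + i)).filter (fun p => A + i < p), ∑ k ∈ Icc 1 (h - i), wt R1 R (p + k) +
        ∑ p ∈ (Pr (B + i)).filter (fun p => A + i < p), ∑ k ∈ Icc 1 (i - 1), wt R1 R (p - k) := by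
      rw [← sum_sub_distrib, ← sum_add_distrib]
      apply sum_congr rfl
      intro p hp
      rw [mem_filter] at hp
      rw [window h i p hi (by omega)]
      ring
    rw [h6]
    have a1 := offT N R1 R 1 (h - i) (A + i) (B + i) F0 (-1) (Or.inr rfl) (fun p k => p + k)
      (by
        intro p _ k _
        push_cast
        ring) (by omega) (by omega) H.hF0 H.hF0R H.hq T H.hT1 H.hT H.hTq M2 H.hM2
    have a2 := offT N R1 R 1 (i - 1) (A + i) (B + i) F0 1 (Or.inl rfl) (fun p k => p - k)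
      (by
        intro p hp k hk
        rw [mem_filter] at hp
        rw [mem_Icc] at hk
        have h7 : k ≤ p := by omega
        push_cast [Nat.cast_sub h7]
        ring) (by omega) (by omega) H.hF0 H.hF0R H.hq T H.hT1 H.hT H.hTq M2 H.hM2
    have b1 := Om_mono N R1 R (h - i) h F0 T M2 hT0 (by omega)
    have b2 := Om_mono N R1 R (i - 1) h F0 T M2 hT0 (by omega)
    have c1 := a1.trans b1
    have c2 := a2.trans b2
    calc _ ≤ _ := abs_add_le _ _
      _ ≤ Om N R1 R h F0 T M2 + Om N R1 R h F0 T M2 := add_le_add c1 c2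
      _ = _ := by ring
  refine (sum_le_sum h5).trans (le_of_eq ?_)
  rw [sum_const, nsmul_eq_mul, Nat.card_Icc, Nat.add_sub_cancel]
  ring

theorem core (N R1 R h F0 A B : ℕ) (T M2 : ℝ) (H : Hyp N R1 R 1 F0 T M2) (hRA : R ≤ A) (hAB : A ≤ B)
    (hBN : B + h ≤ N) (hh : h ≤ R1) (c : ℕ → ℝ) (C V P0 : ℝ) (hc : |c B| ≤ C)
    (hV : ∑ n ∈ Ioo A B, |c (n + 1) - c n| ≤ V) (hP0 : 0 ≤ P0) (hP : P0 ≤ ∑ n ∈ Ioc A B, fp h n)
    (herr : 2 * h * Om N R1 R h F0 T M2 + (C + V) * (h * (R * (1 + Real.log R))) ≤ LL R1 R * P0 / 2) :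
    (LL R1 R * P0 / 2) ^ 2 ≤
      (∑ n ∈ Ioc A B, (fp h n - c n) ^ 2) * (6 * (B + (R : ℝ) ^ 2) * (h * LL R1 R)) := by
  have hR1 : 1 ≤ R1 := le_trans H.hF0 H.hF0R
  have hL := logR_nonneg R
  have hLL : 0 ≤ LL R1 R := by
    unfold LL
    positivity
  have h1 := abs_le.1 (cross N R1 R h F0 A B T M2 H hRA hBN)
  have h2 : |∑ n ∈ Ioc A B, c n * tt R1 R h n| ≤ (C + V) * (h * (R * (1 + Real.log R))) := by
    obtain ⟨k, rfl⟩ : ∃ k, B = A + k := ⟨B - A, by omega⟩
    exact parts c (tt R1 R h) A k _ C V (by positivity) (fun Y _ => tt_interval R1 R h A Y hR1) hc hV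
  have h2' := abs_le.1 h2
  have h3 : ∑ n ∈ Ioc A B, (fp h n - c n) * tt R1 R h n =
      ∑ n ∈ Ioc A B, fp h n * tt R1 R h n - ∑ n ∈ Ioc A B, c n * tt R1 R h n := by
    rw [← sum_sub_distrib]
    apply sum_congr rfl
    intro n _
    ring
  have h4 : LL R1 R * P0 ≤ LL R1 R * ∑ n ∈ Ioc A B, fp h n := mul_le_mul_of_nonneg_left hP hLL
  have h5 : LL R1 R * P0 / 2 ≤ ∑ n ∈ Ioc A B, (fp h n - c n) * tt R1 R h n := by
    rw [h3]
    linarith [h1.1, h2'.2]
  have h6 : 0 ≤ LL R1 R * P0 / 2 := by positivity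
  calc (LL R1 R * P0 / 2) ^ 2 ≤ (∑ n ∈ Ioc A B, (fp h n - c n) * tt R1 R h n) ^ 2 :=
        pow_le_pow_left₀ h6 h5 2
    _ ≤ (∑ n ∈ Ioc A B, (fp h n - c n) ^ 2) * ∑ n ∈ Ioc A B, tt R1 R h n ^ 2 :=
        sum_mul_sq_le_sq_mul_sq _ _ _
    _ ≤ _ := mul_le_mul_of_nonneg_left (energy R1 R h A B hh) (sum_nonneg fun n _ => by positivity)

end Pool.Agent.H52.SI
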