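import Mathlib
import Pool.Agent.H52.LB9

/-!
The number of primes in `(n, 2 n]`.
-/

set_option autoImplicit false

open Finset

namespace Pool.Agent.H52.SI

lemma central_le (n : ℕ) (hn : 2 < n) :
    Nat.centralBinom n ≤ (2 * n) ^ Nat.sqrt (2 * n) * 4 ^ (2 * n / 3) *
      (2 * n) ^ ((Ioc n (2 * n)).filter Nat.Prime).card := by
  have n_pos : 0 < n := by omega
  have n2_pos : 1 ≤ 2 * n := by omega
  set f : ℕ → ℕ := fun x => x ^ n.centralBinom.factorization x with hf
  have h0 : Nat.centralBinom n = ∏ p ∈ range (2 * n + 1), f p := (n.prod_pow_factorization_centralBinom).symm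
  have h1 : ∏ p ∈ range (2 * n + 1), f p = ∏ p ∈ (range (2 * n + 1)).filter Nat.Prime, f p := by
    symm
    apply prod_filter_of_ne
    intro p _ h
    contrapose! h
    simp only [hf]
    rw [Nat.factorization_eq_zero_of_not_prime n.centralBinom h, pow_zero]
  have h2 : ∏ p ∈ (range (2 * n + 1)).filter Nat.Prime, f p =
      (∏ p ∈ ((range (2 * n + 1)).filter Nat.Prime).filter (fun p => n < p), f p) *
      ∏ p ∈ ((range (2 * n + 1)).filter Nat.Prime).filter (fun p => ¬ n < p), f p :=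
    (prod_filter_mul_prod_filter_not _ _ _).symm
  have h3 : ∏ p ∈ ((range (2 * n + 1)).filter Nat.Prime).filter (fun p => n < p), f p ≤
      (2 * n) ^ ((Ioc n (2 * n)).filter Nat.Prime).card := by
    have e1 : ((range (2 * n + 1)).filter Nat.Prime).filter (fun p => n < p) =
        (Ioc n (2 * n)).filter Nat.Prime := by
      ext p
      simp only [mem_filter, mem_range, mem_Ioc]
      constructor
      · rintro ⟨⟨a, b⟩, c⟩
        exact ⟨⟨c, by omega⟩, b⟩
      · rintro ⟨⟨a, b⟩, c⟩
        exact ⟨⟨by omega, c⟩, a⟩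
    rw [e1]
    refine (prod_le_prod' fun p _ => (?_ : f p ≤ 2 * n)).trans ?_
    · exact Nat.pow_factorization_choose_le (by omega)
    · rw [prod_const]
  have h4 : ∏ p ∈ ((range (2 * n + 1)).filter Nat.Prime).filter (fun p => ¬ n < p), f p =
      ∏ p ∈ (range (2 * n / 3 + 1)).filter Nat.Prime, f p := by
    symm
    apply prod_subset
    · intro p hp
      simp only [mem_filter, mem_range] at hp ⊢
      exact ⟨⟨by omega, hp.2⟩, by omega⟩
    · intro p hp hp2
      simp only [mem_filter, mem_range, not_and, not_lt] at hp hp2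
      simp only [hf]
      have e2 : 2 * n < 3 * p := by
        by_contra hcon
        exact hp2 (by omega) hp.1.2
      rw [Nat.factorization_centralBinom_of_two_mul_self_lt_three_mul hn hp.2 e2, pow_zero]
  have h5 : ∏ p ∈ (range (2 * n / 3 + 1)).filter Nat.Prime, f p ≤
      (2 * n) ^ Nat.sqrt (2 * n) * 4 ^ (2 * n / 3) := by
    rw [← prod_filter_mul_prod_filter_not ((range (2 * n / 3 + 1)).filter Nat.Prime)
      (fun p => p ≤ Nat.sqrt (2 * n))]
    apply mul_le_mul'
    · refine (prod_le_prod' fun p _ => (?_ : f p ≤ 2 * n)).trans ?_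
      · exact Nat.pow_factorization_choose_le (by omega)
      have : (Icc 1 (Nat.sqrt (2 * n))).card = Nat.sqrt (2 * n) := by rw [Nat.card_Icc, Nat.add_sub_cancel]
      rw [prod_const]
      refine pow_right_mono₀ n2_pos ((card_le_card fun x hx => ?_).trans this.le)
      obtain ⟨h1, h2⟩ := mem_filter.1 hx
      exact mem_Icc.mpr ⟨(mem_filter.1 h1).2.one_lt.le, h2⟩
    · refine le_trans ?_ (primorial_le_four_pow (2 * n / 3))
      refine (prod_le_prod' fun p hp => (?_ : f p ≤ p)).trans ?_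
      · obtain ⟨h1, h2⟩ := mem_filter.1 hp
        refine (pow_right_mono₀ (mem_filter.1 h1).2.one_lt.le ?_).trans (pow_one p).le
        exact Nat.factorization_choose_le_one (Nat.sqrt_lt'.mp <| not_le.1 h2)
      refine prod_le_prod_of_subset_of_one_le' (filter_subset _ _) ?_
      exact fun p hp _ => (mem_filter.1 hp).2.one_lt.le
  rw [h0, h1, h2, h4, mul_comm]
  exact mul_le_mul' h5 h3

/-- many primes in `(n, 2 n]` -/
theorem dyadic_primes : ∃ n0 : ℕ, ∀ n : ℕ, n0 ≤ n →
    (n : ℝ) / 8 ≤ (((Ioc n (2 * n)).filter Nat.Prime).card : ℝ) * Real.log n := by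
  obtain ⟨Y0, hY0⟩ := ev_theta
  refine ⟨Y0 + 16, fun n hn => ?_⟩
  have hl2 : 0.6931471803 < Real.log 2 := Real.log_two_gt_d9
  have hl2' : Real.log 2 < 0.6931471808 := Real.log_two_lt_d9
  have hn1 : (16 : ℝ) ≤ n := by exact_mod_cast (by omega : 16 ≤ n)
  have hn0 : (0 : ℝ) < n := by linarith
  set K := ((Ioc n (2 * n)).filter Nat.Prime).card with hK
  have h1 : 4 ^ n < n * ((2 * n) ^ Nat.sqrt (2 * n) * 4 ^ (2 * n / 3) * (2 * n) ^ K) := by
    refine lt_of_lt_of_le (Nat.four_pow_lt_mul_centralBinom n (by omega)) ?_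
    exact Nat.mul_le_mul_left n (central_le n (by omega))
  have h2 : (4 : ℝ) ^ n < n * ((2 * n) ^ Nat.sqrt (2 * n) * 4 ^ (2 * n / 3) * (2 * n) ^ K) := by
    exact_mod_cast h1
  have h3 := Real.log_lt_log (by positivity) h2
  have h2n : (0 : ℝ) < 2 * n := by positivity
  rw [Real.log_mul (by positivity) (by positivity), Real.log_mul (by positivity) (by positivity),
    Real.log_mul (by positivity) (by positivity), Real.log_pow, Real.log_pow, Real.log_pow, Real.log_pow] at h3
  have hlog4 : Real.log 4 = 2 * Real.log 2 := by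
    rw [show (4 : ℝ) = 2 ^ 2 by norm_num, Real.log_pow]
    push_cast
    ring
  have hlog2n : Real.log (2 * n) = Real.log 2 + Real.log n := Real.log_mul (by norm_num) (by positivity)
  have hlogn : 2.7 ≤ Real.log n := by
    have h4 : Real.log 16 = 4 * Real.log 2 := by
      rw [show (16 : ℝ) = 2 ^ 4 by norm_num, Real.log_pow]
      push_cast
      ring
    have h5 := Real.log_le_log (by norm_num) hn1
    linarith
  have h6 : ((Nat.sqrt (2 * n) : ℕ) : ℝ) ≤ 1.4143 * Real.sqrt n := by
    have e1 : ((Nat.sqrt (2 * n) : ℕ) : ℝ) ≤ Real.sqrt ((2 * n : ℕ) : ℝ) := Real.nat_sqrt_le_real_sqrt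
    have e2 : Real.sqrt ((2 * n : ℕ) : ℝ) = Real.sqrt 2 * Real.sqrt n := by
      push_cast
      rw [Real.sqrt_mul (by norm_num)]
    have e3 : Real.sqrt 2 ≤ 1.4143 := by
      rw [Real.sqrt_le_left (by norm_num)]
      norm_num
    rw [e2] at e1
    exact e1.trans (mul_le_mul_of_nonneg_right e3 (Real.sqrt_nonneg _))
  have h7 := hY0 n (by omega)
  have h8 : ((Nat.sqrt (2 * n) : ℕ) : ℝ) * Real.log (2 * n) ≤ 2 * Real.sqrt n * Real.log n := by
    rw [hlog2n]
    have e1 : Real.log 2 + Real.log n ≤ 1.4 * Real.log n := by linarith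
    calc ((Nat.sqrt (2 * n) : ℕ) : ℝ) * (Real.log 2 + Real.log n) ≤
          (1.4143 * Real.sqrt n) * (1.4 * Real.log n) := by
          apply mul_le_mul h6 e1 (by linarith) (by positivity)
      _ = 1.98002 * (Real.sqrt n * Real.log n) := by ring
      _ ≤ 2 * (Real.sqrt n * Real.log n) := by
          apply mul_le_mul_of_nonneg_right (by norm_num)
          exact mul_nonneg (Real.sqrt_nonneg _) (by linarith)
      _ = _ := by ring
  have h9 : Real.log n ≤ Real.log ((n : ℝ) + 1) := Real.log_le_log hn0 (by linarith)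
  have h10 : ((2 * n / 3 : ℕ) : ℝ) ≤ 2 * n / 3 := by
    have : ((2 * n / 3 : ℕ) : ℝ) ≤ ((2 * n : ℕ) : ℝ) / ((3 : ℕ) : ℝ) := Nat.cast_div_le
    push_cast at this
    exact this
  have h11 : ((2 * n / 3 : ℕ) : ℝ) * Real.log 4 ≤ 2 * n / 3 * Real.log 4 :=
    mul_le_mul_of_nonneg_right h10 (by rw [hlog4]; linarith)
  have hK0 : (0 : ℝ) ≤ K := by positivity
  have h12 : (K : ℝ) * Real.log (2 * n) ≤ K * (2 * Real.log n) := by
    apply mul_le_mul_of_nonneg_left _ hK0
    rw [hlog2n]
    linarith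
  have h13 : (n : ℝ) * Real.log 2 ≤ n * 0.6931471808 := by gcongr
  have h14 : (n : ℝ) * 0.6931471803 ≤ n * Real.log 2 := by gcongr
  rw [hlog4] at h3 h11
  nlinarith [h3, h7, h8, h9, h11, h12, h13, h14]

end Pool.Agent.H52.SI
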