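import Mathlib
import Pool.Agent.H52.SI.S2
import Pool.Agent.H52.SI.S3
import Pool.Agent.H52.EH11

/-!
The mean square of primes in short intervals.
-/

set_option autoImplicit false

open Finset

namespace Pool.Agent.H52.SI

lemma fp_nonneg (h n : ℕ) : 0 ≤ fp h n := sum_nonneg fun i _ => by positivity

lemma fp_le (h n : ℕ) : fp h n ≤ h := by
  unfold fp
  have h1 : ∀ i ∈ Icc 1 h, (if (n + i).Prime then (1 : ℝ) else 0) ≤ 1 := by
    intro i _
    split_ifs <;> norm_num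
  refine (sum_le_sum h1).trans (le_of_eq ?_)
  rw [sum_const, nsmul_eq_mul, mul_one, Nat.card_Icc, Nat.add_sub_cancel]

lemma fp_sum (N h : ℕ) : (h : ℝ) * ((((Ioc N (2 * N)).filter Nat.Prime).card : ℝ) - h) ≤
    ∑ n ∈ Ioc N (2 * N), fp h n := by
  unfold fp
  rw [sum_comm]
  have h1 : ∀ i ∈ Icc 1 h, (((Ioc N (2 * N)).filter Nat.Prime).card : ℝ) - h ≤
      ∑ n ∈ Ioc N (2 * N), (if (n + i).Prime then (1 : ℝ) else 0) := by
    intro i hi
    rw [mem_Icc] at hi
    have h2 := shift_primes N (2 * N) i (fun _ => 1)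
    rw [h2, sum_const, nsmul_eq_mul, mul_one]
    have h3 : (Ioc N (2 * N)).filter Nat.Prime ⊆
        ((Pr (2 * N + i)).filter (fun p => N + i < p)) ∪ Ioc N (N + i) := by
      intro p hp
      rw [mem_filter, mem_Ioc] at hp
      unfold Pr
      rw [mem_union, mem_filter, mem_filter, mem_Icc, mem_Ioc]
      rcases le_or_gt p (N + i) with h4 | h4
      · right
        omega
      · left
        exact ⟨⟨⟨hp.2.pos, by omega⟩, hp.2⟩, h4⟩
    have h4 := (card_le_card h3).trans (card_union_le _ _)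
    rw [Nat.card_Ioc] at h4
    have h5 : ((Ioc N (2 * N)).filter Nat.Prime).card ≤
        ((Pr (2 * N + i)).filter (fun p => N + i < p)).card + h := by omega
    have h6 : (((Ioc N (2 * N)).filter Nat.Prime).card : ℝ) ≤
        (((Pr (2 * N + i)).filter (fun p => N + i < p)).card : ℝ) + h := by exact_mod_cast h5
    linarith
  have h2 := card_nsmul_le_sum (Icc 1 h) _ _ h1
  rw [nsmul_eq_mul, Nat.card_Icc, Nat.add_sub_cancel] at h2
  exact h2

/-- truncation to `[0, h]` -/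
noncomputable def tr (h x : ℝ) : ℝ := max 0 (min x h)

lemma tr_lip (h x y : ℝ) : |tr h x - tr h y| ≤ |x - y| := by
  unfold tr
  have h1 := abs_max_sub_max_le_abs (min x h) (min y h) 0
  have h2 := abs_min_sub_min_le_max x h y h
  rw [max_comm (min x h) 0, max_comm (min y h) 0] at h1
  simp only [sub_self, abs_zero] at h2
  have h3 : max |x - y| 0 = |x - y| := max_eq_left (abs_nonneg _)
  rw [h3] at h2
  exact h1.trans h2

lemma tr_close (h x f : ℝ) (hf0 : 0 ≤ f) (hfh : f ≤ h) : (f - tr h x) ^ 2 ≤ (f - x) ^ 2 := by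
  apply sq_le_sq.2
  unfold tr
  rcases le_total x h with h1 | h1
  · rw [min_eq_left h1]
    rcases le_total 0 x with h2 | h2
    · rw [max_eq_right h2]
    · rw [max_eq_left h2, sub_zero, abs_of_nonneg hf0, abs_of_nonneg (by linarith)]
      linarith
  · rw [min_eq_right h1, max_eq_right (by linarith), abs_of_nonpos (by linarith), abs_of_nonpos (by linarith)]
    linarith

lemma tr_abs (h x : ℝ) (hh : 0 ≤ h) : |tr h x| ≤ h := by
  unfold tr
  rw [abs_of_nonneg (le_max_left _ _)]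
  exact max_le hh (min_le_right _ _)

theorem short_var (δ : ℝ) (hδ : 0 < δ) (hδ2 : δ ≤ 1 / 3) : ∃ x0 : ℕ, ∀ N : ℕ, x0 ≤ N → ∀ h : ℕ, 1 ≤ h →
    (h : ℝ) ≤ (N : ℝ) ^ (1 / 3 - δ) → ∀ c : ℕ → ℝ,
    ∑ n ∈ Ioo N (2 * N), |c (n + 1) - c n| ≤ (N : ℝ) ^ (2 / 3 : ℝ) →
    (δ / 2 ^ 23) * (h * N / Real.log N) ≤ ∑ n ∈ Ioc N (2 * N), (fp h n - c n) ^ 2 := by
  obtain ⟨n0, hn0⟩ := dyadic_primes
  obtain ⟨x0, hx0⟩ := ev_u (2 * δ / 5) (by positivity) (max 128 (2 ^ 21 / δ))
  refine ⟨x0 + n0 + 300, fun N0 hN0 h hh1 hhN c hc => ?_⟩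
  obtain ⟨N, hNdef⟩ : ∃ N, N = 3 * N0 := ⟨_, rfl⟩
  obtain ⟨hN1, hu, hlogu, hlog, hdiv⟩ := hx0 N (by omega)
  have hN0R : (0 : ℝ) < N0 := by exact_mod_cast (by omega : 0 < N0)
  have hN3 : (N : ℝ) = 3 * N0 := by rw [hNdef]; push_cast; ring
  have hNR : (0 : ℝ) < N := by exact_mod_cast (by omega : 0 < N)
  have hN1R : (1 : ℝ) ≤ N := by exact_mod_cast hN1
  set u : ℝ := (N : ℝ) ^ (2 * δ / 5 / 64) with hudef
  have hu128 : 128 ≤ u := le_trans (le_max_left _ _) hu
  have hud : 2 ^ 21 / δ ≤ u := le_trans (le_max_right _ _) hu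
  have hlog128 : 128 ≤ Real.log N := le_trans (le_max_left _ _) hlog
  have hlogd : 2 ^ 21 / δ ≤ Real.log N := le_trans (le_max_right _ _) hlog
  have hu0 : 0 < u := by linarith
  have hu1 : 1 ≤ u := by linarith
  have hlogN0 : 0 < Real.log N := by linarith
  -- powers
  obtain ⟨v, hvdef⟩ : ∃ v : ℝ, v = (N : ℝ) ^ (1 / 3 : ℝ) := ⟨_, rfl⟩
  have hv0 : 0 < v := by rw [hvdef]; positivity
  have hv3 : v ^ 3 = N := by
    rw [hvdef, ← Real.rpow_natCast, ← Real.rpow_mul hNR.le]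
    norm_num
  have hu160 : u ^ 160 = (N : ℝ) ^ δ := by
    rw [hudef, ← Real.rpow_natCast, ← Real.rpow_mul hNR.le]
    congr 1
    push_cast
    ring
  have huv : u ^ 160 ≤ v := by
    rw [hu160, hvdef]
    exact Real.rpow_le_rpow_of_exponent_le hN1R hδ2
  have hv1 : 1 ≤ v := le_trans (one_le_pow₀ hu1) huv
  have hhv : (h : ℝ) ≤ v / u ^ 160 := by
    rw [hu160, hvdef, ← Real.rpow_sub hNR]
    refine hhN.trans ?_
    apply Real.rpow_le_rpow hN0R.le _ (by linarith)
    rw [hN3]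
    linarith
  have hcv : (N0 : ℝ) ^ (2 / 3 : ℝ) ≤ v ^ 2 := by
    have h1 : v ^ 2 = (N : ℝ) ^ (2 / 3 : ℝ) := by
      rw [hvdef, ← Real.rpow_natCast, ← Real.rpow_mul hNR.le]
      norm_num
    rw [h1]
    apply Real.rpow_le_rpow hN0R.le _ (by norm_num)
    rw [hN3]
    linarith
  have hh0 : (1 : ℝ) ≤ h := by exact_mod_cast hh1
  -- parameters
  set R : ℕ := ⌊(h : ℝ) * u ^ 110⌋₊ with hRdef
  set R1 : ℕ := ⌈(h : ℝ) * u ^ 100⌉₊ with hR1def
  set F0 : ℕ := ⌈u ^ 40⌉₊ with hF0def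
  set U : ℕ := ⌊v⌋₊ with hUdef
  set L : ℕ := Nat.log 2 N + 1 with hLdef
  have hR : (R : ℝ) ≤ (h : ℝ) * u ^ 110 := Nat.floor_le (by positivity)
  have hR1 : (h : ℝ) * u ^ 100 ≤ R1 := Nat.le_ceil _
  have hu100 : 128 ≤ u ^ 100 := by
    calc (128 : ℝ) ≤ u := hu128
      _ = u ^ 1 := by ring
      _ ≤ u ^ 100 := pow_le_pow_right₀ hu1 (by norm_num)
  have hNQu : 128 ≤ (h : ℝ) * u ^ 100 := by
    calc (128 : ℝ) = 1 * 128 := by norm_num
      _ ≤ (h : ℝ) * u ^ 100 := mul_le_mul hh0 hu100 (by norm_num) (by linarith only [hh0])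
  have hR1_128 : 128 ≤ R1 := by
    have : (128 : ℝ) ≤ R1 := by linarith
    exact_mod_cast this
  have hR1R : (0 : ℝ) < R1 := by exact_mod_cast (by omega : 0 < R1)
  have hhR1 : h ≤ R1 := by
    have : (h : ℝ) ≤ R1 := by
      calc (h : ℝ) = h * 1 := by ring
        _ ≤ h * u ^ 100 := by gcongr; linarith
        _ ≤ R1 := hR1
    exact_mod_cast this
  have hR1up : (R1 : ℝ) ≤ 2 * ((h : ℝ) * u ^ 100) := by
    have e1 : (R1 : ℝ) < (h : ℝ) * u ^ 100 + 1 := Nat.ceil_lt_add_one (by positivity)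
    linarith
  have hRv : (R : ℝ) ≤ v / u ^ 50 := by
    calc (R : ℝ) ≤ (h : ℝ) * u ^ 110 := hR
      _ ≤ (v / u ^ 160) * u ^ 110 := by gcongr
      _ = v / u ^ 50 := by field_simp
  have hRlow : (h : ℝ) * u ^ 110 / 2 ≤ R := by
    have e1 : (h : ℝ) * u ^ 110 < R + 1 := Nat.lt_floor_add_one _
    have e2 : 2 ≤ (h : ℝ) * u ^ 110 := by
      calc (2 : ℝ) ≤ (h : ℝ) * u ^ 100 := by linarith
        _ ≤ (h : ℝ) * u ^ 110 := by
            gcongr
            norm_num
    linarith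
  have hRvv : (R : ℝ) ≤ v / u := by
    calc (R : ℝ) ≤ v / u ^ 50 := hRv
      _ ≤ v / u ^ 1 := by
          apply div_le_div_of_nonneg_left hv0.le (by positivity)
          exact pow_le_pow_right₀ hu1 (by norm_num)
      _ = v / u := by rw [pow_one]
  have hv128 : 128 ≤ v := by
    calc (128 : ℝ) ≤ u := hu128
      _ = u ^ 1 := by ring
      _ ≤ u ^ 160 := pow_le_pow_right₀ hu1 (by norm_num)
      _ ≤ v := huv
  have hR128 : (R : ℝ) ≤ v / 128 := by
    refine hRvv.trans ?_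
    apply div_le_div_of_nonneg_left hv0.le (by norm_num) hu128
  have hv2N : 128 * v ^ 2 ≤ N := by
    rw [← hv3]
    calc 128 * v ^ 2 ≤ v * v ^ 2 := by gcongr
      _ = v ^ 3 := by ring
  have hvN : 128 * v ≤ N := by
    calc 128 * v = 128 * (v * 1) := by ring
      _ ≤ 128 * (v * v) := by gcongr
      _ = 128 * v ^ 2 := by ring
      _ ≤ N := hv2N
  have hRN0 : R ≤ N0 := by
    have e1 : (R : ℝ) ≤ N0 := by linarith
    exact_mod_cast e1
  have hRN : R ≤ N := by omega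
  have hR2 : (R : ℝ) ^ 2 ≤ N0 := by
    calc (R : ℝ) ^ 2 ≤ (v / 128) ^ 2 := pow_le_pow_left₀ (by positivity) hR128 2
      _ = v ^ 2 / 16384 := by ring
      _ ≤ N0 := by linarith
  have hhN0 : (h : ℝ) ≤ v := by
    refine hhv.trans (div_le_self hv0.le ?_)
    exact one_le_pow₀ hu1
  have hhN0' : h ≤ N0 := by
    have e1 : (h : ℝ) ≤ N0 := by linarith
    exact_mod_cast e1
  have hlogR : Real.log R ≤ Real.log N := by
    rcases Nat.eq_zero_or_pos R with h | h
    · rw [h]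
      simp only [Nat.cast_zero, Real.log_zero]
      linarith
    · exact Real.log_le_log (by exact_mod_cast h) (by exact_mod_cast hRN)
  have hH : 1 + Real.log R ≤ u := by linarith
  have hH0 := logR_nonneg R
  -- the main term
  have hlu : Real.log u = δ / 160 * Real.log N := by
    rw [hudef, Real.log_rpow hNR]
    ring
  have hδl : 2 ^ 21 ≤ δ * Real.log N := by
    rw [div_le_iff₀ hδ] at hlogd
    linarith
  have hδu : 2 ^ 21 ≤ δ * u := by
    rw [div_le_iff₀ hδ] at hud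
    linarith
  have hLLlow : δ / 256 * Real.log N ≤ LL R1 R := by
    have ht : u ^ 9 ≤ (R : ℝ) / R1 := by
      rw [le_div_iff₀ hR1R]
      calc u ^ 9 * R1 ≤ u ^ 9 * (2 * ((h : ℝ) * u ^ 100)) := by gcongr
        _ = 4 * ((h : ℝ) * u ^ 109) / 2 := by ring
        _ ≤ u * ((h : ℝ) * u ^ 109) / 2 := by gcongr; linarith
        _ = (h : ℝ) * u ^ 110 / 2 := by ring
        _ ≤ R := hRlow
    refine le_trans ?_ (LL_big2 R1 R (u ^ 9) (one_le_pow₀ hu1) ht hR1_128)
    rw [Real.log_pow, hlu]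
    have hl2 : 0 < Real.log 2 := Real.log_pos (by norm_num)
    have hl2' : Real.log 2 < 0.6931471808 := Real.log_two_lt_d9
    have e1 : (0.08 : ℝ) * (δ * Real.log N) ≤ ((9 : ℕ) : ℝ) * (δ / 160 * Real.log N) / Real.log 2 := by
      rw [le_div_iff₀ hl2]
      push_cast
      have e0 : 0 ≤ 0.08 * (δ * Real.log N) := by positivity
      have e2 := mul_le_mul_of_nonneg_left hl2'.le e0
      have e3 : 0 ≤ δ * Real.log N := by positivity
      have e4 : (9 : ℝ) * (δ / 160 * Real.log N) = 0.05625 * (δ * Real.log N) := by ring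
      rw [e4]
      linarith only [e2, e3]
    linarith only [e1, hδl]
  have hLLpos : 0 < LL R1 R := by
    refine lt_of_lt_of_le ?_ hLLlow
    positivity
  -- the mean value
  have hUv : (U : ℝ) ≤ v := Nat.floor_le hv0.le
  have hU1 : 1 ≤ U := by
    rw [hUdef]
    exact Nat.le_floor (by simpa using hv1)
  have hvU : v ≤ 2 * U := by
    have e1 : v < U + 1 := Nat.lt_floor_add_one _
    have e2 : (1 : ℝ) ≤ U := by exact_mod_cast hU1
    linarith
  have hUN : U * U * U ≤ N := by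
    have e1 : (U : ℝ) * U * U ≤ N := by
      rw [← hv3]
      calc (U : ℝ) * U * U = (U : ℝ) ^ 3 := by ring
        _ ≤ v ^ 3 := pow_le_pow_left₀ (by positivity) hUv 3
    exact_mod_cast e1
  have hNL : N < 2 ^ L := Nat.lt_pow_succ_log_self (by norm_num) _
  have hLu : (L : ℝ) ≤ u := by
    have e1 : (Nat.log 2 N : ℝ) * Real.log 2 ≤ Real.log N := by
      have h1 : 2 ^ Nat.log 2 N ≤ N := Nat.pow_log_le_self 2 (by omega)
      have h2 : (2 : ℝ) ^ Nat.log 2 N ≤ N := by exact_mod_cast h1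
      have h3 := Real.log_le_log (by positivity) h2
      rwa [Real.log_pow] at h3
    have hl2 : 0.6931471803 < Real.log 2 := Real.log_two_gt_d9
    have e2 : (0 : ℝ) ≤ Nat.log 2 N := by positivity
    have e3 : (L : ℝ) = Nat.log 2 N + 1 := by rw [hLdef]; push_cast; ring
    rw [e3]
    have e4 := mul_le_mul_of_nonneg_left hl2.le e2
    linarith only [e1, e4, hlogu, hlog128]
  have hF0low : u ^ 40 ≤ F0 := Nat.le_ceil _
  have hF0up : (F0 : ℝ) ≤ 2 * u ^ 40 := by
    have e1 : (F0 : ℝ) < u ^ 40 + 1 := Nat.ceil_lt_add_one (by positivity)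
    have e2 : (1 : ℝ) ≤ u ^ 40 := one_le_pow₀ hu1
    linarith
  have hF02 : 2 ≤ F0 := by
    have : (2 : ℝ) ≤ F0 := by
      calc (2 : ℝ) ≤ u := by linarith
        _ = u ^ 1 := by ring
        _ ≤ u ^ 40 := pow_le_pow_right₀ hu1 (by norm_num)
        _ ≤ F0 := hF0low
    exact_mod_cast this
  have hF0R1 : F0 ≤ R1 := by
    have e1 : (F0 : ℝ) ≤ R1 := by
      calc (F0 : ℝ) ≤ 2 * u ^ 40 := hF0up
        _ ≤ u * u ^ 40 := by gcongr; linarith
        _ = 1 * u ^ 41 := by ring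
        _ ≤ (h : ℝ) * u ^ 100 := by
            gcongr
            norm_num
        _ ≤ R1 := hR1
    exact_mod_cast e1
  have hM1 : ∀ F : ℕ, F0 ≤ F → F ≤ R →
      Real.sqrt (2 * F) * (2 * (BB N U L F u + (F + 1) * (2 * Real.sqrt N * Real.log N))) ≤ N / u ^ 11 := by
    intro F hF1 hF2
    have hFR : (F : ℝ) ≤ R := by exact_mod_cast hF2
    have hF0F : (F0 : ℝ) ≤ F := by exact_mod_cast hF1
    have hFN : F ≤ N := hF2.trans hRN
    have hFpos : (0 : ℝ) < F := by exact_mod_cast (by omega : 0 < F)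
    apply block_size N U L F u u v (by linarith) hv3 hv1 hUv hvU hLu le_rfl hu0.le (by linarith)
    · have e1 : Real.log (2 * F) ≤ Real.log 2 + Real.log N := by
        rw [Real.log_mul (by norm_num) hFpos.ne']
        have := Real.log_le_log hFpos (by exact_mod_cast hFN : (F : ℝ) ≤ N)
        linarith
      have hl2' : Real.log 2 < 0.6931471808 := Real.log_two_lt_d9
      linarith
    · linarith
    · calc (F : ℝ) ≤ v / u ^ 50 := hFR.trans hRv
        _ ≤ 2 * v / u ^ 50 := by gcongr; linarith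
        _ ≤ 2 * v / u ^ 40 := by
            apply div_le_div_of_nonneg_left (by positivity) (by positivity)
            exact pow_le_pow_right₀ hu1 (by norm_num)
  have hM2 : ∀ y ≤ N, ∑ f ∈ Ioc F0 R, Real.sqrt f * Mn f (fun ψ => ‖PS y f ψ‖) ≤ N / u ^ 10 := by
    intro y hy
    have h1 := mean_blocks N U L F0 R hU1 hUN hNL hF02 hRN u hu1
      (fun m hm => by
        rw [mem_Icc] at hm
        exact hdiv m (by omega) (by omega)) (by linarith) (N / u ^ 11) (by positivity) hM1 y hy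
    refine h1.trans ?_
    calc (L : ℝ) * (N / u ^ 11) ≤ u * (N / u ^ 11) := by gcongr
      _ = N / u ^ 10 := by field_simp
  have hHyp : Hyp N R1 R 1 F0 u (N / u ^ 10) :=
    { hF0 := by omega
      hF0R := hF0R1
      hq := Nat.one_pos
      hT1 := hu1
      hM20 := by positivity
      hT := fun n hn hn2 => hdiv n hn (by omega)
      hTq := hdiv 1 Nat.one_pos (by omega)
      hM2 := hM2 }
  -- size of the off-diagonal terms
  have hOm : Om N R1 R h F0 u (N / u ^ 10) ≤ N / u ^ 4 := by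
    unfold Om
    have e1 : (h : ℝ) / R1 ≤ 1 / u ^ 100 := by
      rw [div_le_div_iff₀ hR1R (by positivity)]
      linarith
    have e2 : (F0 : ℝ) * (2 * F0 / R1 * (h * (u ^ 3 * (1 + Real.log R)))) * N ≤ 8 * N / u ^ 16 := by
      calc (F0 : ℝ) * (2 * F0 / R1 * (h * (u ^ 3 * (1 + Real.log R)))) * N =
            2 * (F0 : ℝ) ^ 2 * ((h : ℝ) / R1) * (u ^ 3 * (1 + Real.log R)) * N := by ring
        _ ≤ 2 * (2 * u ^ 40) ^ 2 * (1 / u ^ 100) * (u ^ 3 * u) * N := by gcongr
        _ = 8 * N / u ^ 16 := by field_simp; ring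
    have e3 : 4 * u ^ 3 * (1 + Real.log R) ^ 2 * (N / u ^ 10) ≤ 4 * N / u ^ 5 := by
      calc 4 * u ^ 3 * (1 + Real.log R) ^ 2 * (N / u ^ 10) ≤ 4 * u ^ 3 * u ^ 2 * (N / u ^ 10) := by gcongr
        _ = 4 * N / u ^ 5 := by field_simp
    have e4 : 8 * N / u ^ 16 ≤ 8 * N / u ^ 5 := by
      apply div_le_div_of_nonneg_left (by positivity) (by positivity)
      exact pow_le_pow_right₀ hu1 (by norm_num)
    calc _ ≤ 8 * N / u ^ 5 + 4 * N / u ^ 5 := by linarith
      _ = 12 * N / u ^ 5 := by ring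
      _ ≤ u * N / u ^ 5 := by gcongr; linarith
      _ = N / u ^ 4 := by field_simp
  -- the primes
  have hlN0 : 0 < Real.log N0 := Real.log_pos (by exact_mod_cast (by omega : 1 < N0))
  have hlN0N : Real.log N0 ≤ Real.log N := Real.log_le_log hN0R (by rw [hN3]; linarith)
  have hK := hn0 N0 (by omega)
  set K := ((Ioc N0 (2 * N0)).filter Nat.Prime).card with hKdef
  set P0 : ℝ := h * (N0 / (16 * Real.log N0)) with hP0def
  have hP00 : 0 ≤ P0 := by positivity
  have hvu2 : v * (u * u) ≤ N := by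
    calc v * (u * u) = v * u ^ 2 := by ring
      _ ≤ v * u ^ 160 := by
          gcongr
          norm_num
      _ ≤ v * v := by gcongr
      _ = v ^ 2 := by ring
      _ ≤ N := by linarith only [hv2N, sq_nonneg v]
  have hPh : (h : ℝ) ≤ N0 / (16 * Real.log N0) := by
    rw [le_div_iff₀ (by positivity)]
    have e1 : 16 * Real.log N0 ≤ u * u / 3 := by
      have e2 : 16 * Real.log N0 ≤ 16 * u := by linarith
      have e3 : 128 * u ≤ u * u := by gcongr
      linarith
    calc (h : ℝ) * (16 * Real.log N0) ≤ v * (u * u / 3) := by gcongr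
      _ = v * (u * u) / 3 := by ring
      _ ≤ N / 3 := by linarith
      _ = N0 := by rw [hN3]; ring
  have hP : P0 ≤ ∑ n ∈ Ioc N0 (2 * N0), fp h n := by
    refine le_trans ?_ (fp_sum N0 h)
    rw [hP0def]
    apply mul_le_mul_of_nonneg_left _ (by linarith)
    have e1 : (N0 : ℝ) / (8 * Real.log N0) ≤ K := by
      rw [div_le_iff₀ (by positivity)]
      linarith
    have e2 : (N0 : ℝ) / (8 * Real.log N0) = 2 * (N0 / (16 * Real.log N0)) := by
      field_simp
      norm_num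
    rw [← hKdef]
    linarith
  -- the prediction
  set c' : ℕ → ℝ := fun n => tr h (c n) with hc'
  have hV : ∑ n ∈ Ioo N0 (2 * N0), |c' (n + 1) - c' n| ≤ v ^ 2 :=
    ((sum_le_sum fun n _ => tr_lip _ _ _).trans hc).trans hcv
  have hC : |c' (2 * N0)| ≤ h := tr_abs _ _ (by linarith)
  have hmain : δ / 12288 * (h * N) ≤ LL R1 R * P0 := by
    calc δ / 12288 * (h * N) = (δ / 256 * Real.log N0) * P0 := by
          rw [hP0def, hN3]
          field_simp
          norm_num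
      _ ≤ (δ / 256 * Real.log N) * P0 := by gcongr
      _ ≤ LL R1 R * P0 := by gcongr
  have herr : 2 * h * Om N R1 R h F0 u (N / u ^ 10) + (h + v ^ 2) * (h * (R * (1 + Real.log R))) ≤
      LL R1 R * P0 / 2 := by
    have e1 : 2 * h * Om N R1 R h F0 u (N / u ^ 10) ≤ 2 * h * (N / u ^ 4) := by gcongr
    have e2 : (h + v ^ 2) * (h * (R * (1 + Real.log R))) ≤ (2 * v ^ 2) * (h * (v / u ^ 50 * u)) := by
      have e3 : (h : ℝ) + v ^ 2 ≤ 2 * v ^ 2 := by
        have : v * 1 ≤ v * v := by gcongr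
        linarith [this, hhN0]
      gcongr
    have e3 : (2 * v ^ 2) * (h * (v / u ^ 50 * u)) = 2 * h * (N / u ^ 49) := by
      rw [← hv3]
      field_simp
    have e4 : (N : ℝ) / u ^ 49 ≤ N / u ^ 4 := by
      apply div_le_div_of_nonneg_left hNR.le (by positivity)
      exact pow_le_pow_right₀ hu1 (by norm_num)
    have e5 : 2 * (h : ℝ) * (N / u ^ 49) ≤ 2 * h * (N / u ^ 4) := by gcongr
    have e6 : (N : ℝ) / u ^ 4 ≤ (δ / 2 ^ 21) * N := by
      rw [div_le_iff₀ (by positivity)]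
      have e7 : 1 ≤ (δ / 2 ^ 21) * u ^ 4 := by
        have e8 : 1 ≤ (δ / 2 ^ 21) * u := by linarith
        calc (1 : ℝ) ≤ (δ / 2 ^ 21) * u := e8
          _ = (δ / 2 ^ 21) * u ^ 1 := by rw [pow_one]
          _ ≤ (δ / 2 ^ 21) * u ^ 4 := by
              gcongr
              norm_num
      calc (N : ℝ) = 1 * N := by ring
        _ ≤ ((δ / 2 ^ 21) * u ^ 4) * N := by gcongr
        _ = _ := by ring
    have e7 : 4 * h * ((δ / 2 ^ 21) * N) ≤ δ / 24576 * (h * N) := by
      have e8 : 0 ≤ δ * (h * N) := by positivity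
      calc 4 * h * ((δ / 2 ^ 21) * N) = (4 / 2 ^ 21) * (δ * (h * N)) := by ring
        _ ≤ (1 / 24576) * (δ * (h * N)) := by
            apply mul_le_mul_of_nonneg_right _ e8
            norm_num
        _ = _ := by ring
    have e8 : 4 * (h : ℝ) * (N / u ^ 4) ≤ 4 * h * ((δ / 2 ^ 21) * N) := by gcongr
    rw [e3] at e2
    linarith
  have hcore := core N R1 R h F0 N0 (2 * N0) u (N / u ^ 10) hHyp hRN0 (by omega) (by omega) hhR1 c' h
    (v ^ 2) P0 hC hV hP00 hP herr
  have hS : ∑ n ∈ Ioc N0 (2 * N0), (fp h n - c' n) ^ 2 ≤ ∑ n ∈ Ioc N0 (2 * N0), (fp h n - c n) ^ 2 := by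
    apply sum_le_sum
    intro n _
    exact tr_close h (c n) (fp h n) (fp_nonneg h n) (fp_le h n)
  set S := ∑ n ∈ Ioc N0 (2 * N0), (fp h n - c n) ^ 2 with hSdef
  have hS0 : 0 ≤ S := sum_nonneg fun n _ => by positivity
  have h1 : (LL R1 R * P0 / 2) ^ 2 ≤ S * (18 * N0 * (h * LL R1 R)) := by
    refine hcore.trans ?_
    have e1 : 6 * (((2 * N0 : ℕ) : ℝ) + (R : ℝ) ^ 2) * (h * LL R1 R) ≤ 18 * N0 * (h * LL R1 R) := by
      apply mul_le_mul_of_nonneg_right _ (by positivity)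
      push_cast
      linarith
    apply mul_le_mul hS e1 _ hS0
    have : 0 ≤ (((2 * N0 : ℕ) : ℝ) + (R : ℝ) ^ 2) := by positivity
    positivity
  have h2 : LL R1 R * P0 ^ 2 ≤ S * (72 * N0 * h) := by
    have e1 : LL R1 R * (LL R1 R * P0 ^ 2) ≤ LL R1 R * (S * (72 * N0 * h)) := by
      have e2 : LL R1 R * (LL R1 R * P0 ^ 2) = 4 * (LL R1 R * P0 / 2) ^ 2 := by ring
      have e3 : LL R1 R * (S * (72 * N0 * h)) = 4 * (S * (18 * N0 * (h * LL R1 R))) := by ring
      rw [e2, e3]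
      linarith
    exact le_of_mul_le_mul_left e1 hLLpos
  have h3 : (δ / 256 * Real.log N0) * P0 ^ 2 ≤ S * (72 * N0 * h) := by
    refine le_trans ?_ h2
    apply mul_le_mul_of_nonneg_right _ (by positivity)
    refine le_trans ?_ hLLlow
    gcongr
  have h4 : (δ / 256 * Real.log N0) * P0 ^ 2 = (δ / 4718592 * (h * N0 / Real.log N0)) * (72 * N0 * h) := by
    rw [hP0def]
    field_simp
    norm_num
  rw [h4] at h3
  have h5 : δ / 4718592 * (h * N0 / Real.log N0) ≤ S := le_of_mul_le_mul_right h3 (by positivity)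
  refine le_trans ?_ h5
  have e1 : 0 ≤ h * N0 / Real.log N0 := by positivity
  apply mul_le_mul_of_nonneg_right _ e1
  apply div_le_div_of_nonneg_left hδ.le (by norm_num) (by norm_num)

end Pool.Agent.H52.SI
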